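import Mathlib

/-!
# MP_f714fc_ag, commutative algebra, part 4: dimension two

Points of a space of topological Krull dimension at most two, finitely generated modules supported
on maximal ideals, multiplication by an element avoiding the generic points of a torsion module,
avoidance of finitely many subspaces.
-/

namespace Fdim.CA

open TopologicalSpace

universe u v

section topo

variable {X : Type u} [TopologicalSpace X]

lemma irreducibleCloseds_closure_lt [T0Space X] {x y : X} (h : y ∈ closure {x}) (hne : y ≠ x) :
    (⟨closure {y}, isIrreducible_singleton.closure, isClosed_closure⟩ : IrreducibleCloseds X) <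
      ⟨closure {x}, isIrreducible_singleton.closure, isClosed_closure⟩ := by
  rw [lt_iff_le_not_ge]
  have h1 : closure {y} ⊆ closure {x} := closure_minimal (by simpa using h) isClosed_closure
  refine ⟨h1, fun h2 => hne ?_⟩
  have h3 : closure {y} = closure {x} := Set.Subset.antisymm h1 h2
  have h4 : Inseparable y x := inseparable_iff_closure_eq.mpr h3
  exact h4.eq

/-- A chain of strict specialisations of length `n` forces the dimension to be at least `n`;
case `n = 1`. -/
lemma one_le_topologicalKrullDim [T0Space X] {x₁ x₀ : X} (h1 : x₁ ∈ closure {x₀})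
    (hne1 : x₁ ≠ x₀) : (1 : WithBot ℕ∞) ≤ topologicalKrullDim X := by
  let s : LTSeries (IrreducibleCloseds X) :=
    (RelSeries.singleton _ (⟨closure {x₁}, isIrreducible_singleton.closure, isClosed_closure⟩ :
      IrreducibleCloseds X)).snoc
      ⟨closure {x₀}, isIrreducible_singleton.closure, isClosed_closure⟩
      (irreducibleCloseds_closure_lt h1 hne1)
  exact Order.LTSeries.length_le_krullDim s

lemma two_le_topologicalKrullDim [T0Space X] {x₂ x₁ x₀ : X} (h1 : x₁ ∈ closure {x₀})
    (hne1 : x₁ ≠ x₀) (h2 : x₂ ∈ closure {x₁}) (hne2 : x₂ ≠ x₁) :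
    (2 : WithBot ℕ∞) ≤ topologicalKrullDim X := by
  let s : LTSeries (IrreducibleCloseds X) :=
    ((RelSeries.singleton _ (⟨closure {x₂}, isIrreducible_singleton.closure, isClosed_closure⟩ :
      IrreducibleCloseds X)).snoc
      ⟨closure {x₁}, isIrreducible_singleton.closure, isClosed_closure⟩
      (irreducibleCloseds_closure_lt h2 hne2)).snoc
      ⟨closure {x₀}, isIrreducible_singleton.closure, isClosed_closure⟩
      (by simpa using irreducibleCloseds_closure_lt h1 hne1)
  exact Order.LTSeries.length_le_krullDim s

lemma three_le_topologicalKrullDim [T0Space X] {x₃ x₂ x₁ x₀ : X} (h1 : x₁ ∈ closure {x₀})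
    (hne1 : x₁ ≠ x₀) (h2 : x₂ ∈ closure {x₁}) (hne2 : x₂ ≠ x₁) (h3 : x₃ ∈ closure {x₂})
    (hne3 : x₃ ≠ x₂) : (3 : WithBot ℕ∞) ≤ topologicalKrullDim X := by
  let s : LTSeries (IrreducibleCloseds X) :=
    (((RelSeries.singleton _ (⟨closure {x₃}, isIrreducible_singleton.closure, isClosed_closure⟩ :
      IrreducibleCloseds X)).snoc
      ⟨closure {x₂}, isIrreducible_singleton.closure, isClosed_closure⟩
      (irreducibleCloseds_closure_lt h3 hne3)).snoc
      ⟨closure {x₁}, isIrreducible_singleton.closure, isClosed_closure⟩
      (by simpa using irreducibleCloseds_closure_lt h2 hne2)).snoc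
      ⟨closure {x₀}, isIrreducible_singleton.closure, isClosed_closure⟩
      (by simpa using irreducibleCloseds_closure_lt h1 hne1)
  exact Order.LTSeries.length_le_krullDim s

/-- In dimension at most two, a point `z` with `z ≠ y`, `z ∈ closure {y}`, `y ≠ η`, `η` generic, is
closed. -/
theorem isClosed_singleton_of_dim_le_two [T0Space X] (hX : topologicalKrullDim X ≤ 2)
    {η y z : X} (hy : y ∈ closure {η}) (hyη : y ≠ η) (hz : z ∈ closure {y}) (hzy : z ≠ y) :
    IsClosed {z} := by
  by_contra hcl
  have : ∃ w ∈ closure {z}, w ≠ z := by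
    by_contra hno
    push Not at hno
    refine hcl ?_
    have h1 : closure {z} = {z} :=
      Set.Subset.antisymm (fun w hw => hno w hw) subset_closure
    rw [← h1]
    exact isClosed_closure
  obtain ⟨w, hw, hwz⟩ := this
  have h3 := three_le_topologicalKrullDim hy hyη hz hzy hw hwz
  exact absurd (h3.trans hX) (by decide)

/-- In dimension at most one every point other than the generic one is closed. -/
theorem isClosed_singleton_of_dim_le_one [T0Space X] (hX : topologicalKrullDim X ≤ 1)
    {η z : X} (hz : z ∈ closure {η}) (hzη : z ≠ η) : IsClosed {z} := by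
  by_contra hcl
  have : ∃ w ∈ closure {z}, w ≠ z := by
    by_contra hno
    push Not at hno
    refine hcl ?_
    have h1 : closure {z} = {z} :=
      Set.Subset.antisymm (fun w hw => hno w hw) subset_closure
    rw [← h1]
    exact isClosed_closure
  obtain ⟨w, hw, hwz⟩ := this
  have h3 := two_le_topologicalKrullDim hz hzη hw hwz
  exact absurd (h3.trans hX) (by decide)

end topo

section length

variable {A : Type u} [CommRing A] [IsNoetherianRing A] {M : Type v} [AddCommGroup M] [Module A M]
  [Module.Finite A M]

/-- A finitely generated module over a noetherian ring whose support consists of maximal ideals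
has finite length. -/
theorem isFiniteLength_of_support (h : ∀ p ∈ Module.support A M, p.asIdeal.IsMaximal) :
    IsFiniteLength A M := by
  let I := Module.annihilator A M
  have hdim : Ring.KrullDimLE 0 (A ⧸ I) := by
    rw [Ring.krullDimLE_zero_iff]
    intro J hJ
    have hJ' : (J.comap (Ideal.Quotient.mk I)).IsPrime := inferInstance
    have hmem : (⟨J.comap (Ideal.Quotient.mk I), hJ'⟩ : PrimeSpectrum A) ∈
        Module.support A M := by
      rw [Module.support_eq_zeroLocus, PrimeSpectrum.mem_zeroLocus]
      intro x hx
      change Ideal.Quotient.mk I x ∈ J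
      rw [Ideal.Quotient.eq_zero_iff_mem.mpr hx]
      exact J.zero_mem
    have := h _ hmem
    exact Ideal.isMaximal_of_isIntegral_of_isMaximal_comap (R := A) J this
  have hart : IsArtinianRing (A ⧸ I) :=
    isArtinianRing_iff_isNoetherianRing_krullDimLE_zero.mpr ⟨inferInstance, hdim⟩
  let _ : Module (A ⧸ I) M := Module.quotientAnnihilator
  have htower : IsScalarTower A (A ⧸ I) M := ⟨fun a b m => by
    obtain ⟨b, rfl⟩ := Ideal.Quotient.mk_surjective b
    exact mul_smul a b m⟩
  have hfin : Module.Finite (A ⧸ I) M := Module.Finite.of_restrictScalars_finite A _ _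
  have h1 : IsArtinian (A ⧸ I) M := inferInstance
  have h2 : IsArtinian A M :=
    isArtinian_of_surjective_algebraMap (R := A ⧸ I) Ideal.Quotient.mk_surjective
  exact isFiniteLength_iff_isNoetherian_isArtinian.mpr ⟨inferInstance, h2⟩

omit [IsNoetherianRing A] [Module.Finite A M] in
/-- The support of a module of finite length consists of maximal ideals. -/
theorem isMaximal_of_mem_support_of_isFiniteLength (h : IsFiniteLength A M)
    {p : PrimeSpectrum A} (hp : p ∈ Module.support A M) : p.asIdeal.IsMaximal := by
  obtain ⟨h1, h2⟩ := isFiniteLength_iff_isNoetherian_isArtinian.mp h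
  rw [Module.mem_support_iff'] at hp
  obtain ⟨m, hm⟩ := hp
  let f : (A ⧸ LinearMap.ker (LinearMap.toSpanSingleton A M m)) →ₗ[A] M :=
    Submodule.liftQ _ (LinearMap.toSpanSingleton A M m) le_rfl
  have hf : Function.Injective f := by
    rw [← LinearMap.ker_eq_bot]
    exact Submodule.ker_liftQ_eq_bot _ _ _ le_rfl
  have hart : IsArtinian A (A ⧸ LinearMap.ker (LinearMap.toSpanSingleton A M m)) :=
    isArtinian_of_injective f hf
  let J : Ideal A := LinearMap.ker (LinearMap.toSpanSingleton A M m)
  have hJ : J ≤ p.asIdeal := by
    intro x hx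
    by_contra hxp
    exact hm x hxp hx
  have hart2 : IsArtinian A (A ⧸ p.asIdeal) :=
    isArtinian_of_surjective (A ⧸ J) (Submodule.factor hJ) (Submodule.factor_surjective hJ)
  have hart3 : IsArtinianRing (A ⧸ p.asIdeal) := isArtinian_of_tower A hart2
  exact Ideal.Quotient.maximal_of_isField _ (IsArtinianRing.isField_of_isDomain _)

/-- If the support of a finitely generated module meets `V(s)` only in maximal ideals, then the
cokernel of multiplication by `s` has finite length. -/
theorem isFiniteLength_quotSMulTop (s : A)
    (h : ∀ p ∈ Module.support A M, s ∈ p.asIdeal → p.asIdeal.IsMaximal) :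
    IsFiniteLength A (QuotSMulTop s M) := by
  refine isFiniteLength_of_support fun p hp => ?_
  rw [Module.support_quotSMulTop] at hp
  exact h p hp.1 (by simpa using hp.2)

/-- If the support of a finitely generated module meets `V(s)` only in maximal ideals, then the
kernel of multiplication by `s` has finite length. -/
theorem isFiniteLength_ker_lsmul (s : A)
    (h : ∀ p ∈ Module.support A M, s ∈ p.asIdeal → p.asIdeal.IsMaximal) :
    IsFiniteLength A (LinearMap.ker (LinearMap.lsmul A M s)) := by
  have hfin : Module.Finite A (LinearMap.ker (LinearMap.lsmul A M s)) :=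
    Module.Finite.of_injective _ (Submodule.injective_subtype _)
  refine isFiniteLength_of_support fun p hp => ?_
  refine h p (Module.support_subset_of_injective _
    (Submodule.injective_subtype (LinearMap.ker (LinearMap.lsmul A M s))) hp) ?_
  refine Module.annihilator_le_of_mem_support hp ?_
  rw [Module.mem_annihilator]
  intro m
  exact Subtype.ext m.2

omit [IsNoetherianRing A] in
/-- A torsion module over a noetherian domain of dimension at most two: if `s` avoids the minimal
primes of the annihilator which are not maximal, then every prime of the support containing `s` is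
maximal. -/
theorem isMaximal_of_mem_support_of_mem [IsDomain A]
    (hdim : topologicalKrullDim (PrimeSpectrum A) ≤ 2)
    (htors : (⊥ : PrimeSpectrum A) ∉ Module.support A M) (s : A)
    (hs : ∀ q ∈ (Module.annihilator A M).minimalPrimes, ¬ q.IsMaximal → s ∉ q)
    {p : PrimeSpectrum A} (hp : p ∈ Module.support A M) (hsp : s ∈ p.asIdeal) :
    p.asIdeal.IsMaximal := by
  have hann : Module.annihilator A M ≤ p.asIdeal := Module.annihilator_le_of_mem_support hp
  obtain ⟨q, hq, hqp⟩ := Ideal.exists_minimalPrimes_le hann
  have hqprime : q.IsPrime := hq.1.1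
  by_cases hqe : q = p.asIdeal
  · by_contra hmax
    exact hs q hq (hqe ▸ hmax) (hqe ▸ hsp)
  · let y : PrimeSpectrum A := ⟨q, hqprime⟩
    have hy : y ∈ Module.support A M := by
      rw [Module.support_eq_zeroLocus, PrimeSpectrum.mem_zeroLocus]
      exact hq.1.2
    have hyη : y ≠ ⊥ := fun h => htors (h ▸ hy)
    have h1 : y ∈ closure {(⊥ : PrimeSpectrum A)} :=
      (PrimeSpectrum.le_iff_mem_closure _ _).mp bot_le
    have h2 : p ∈ closure {y} := (PrimeSpectrum.le_iff_mem_closure _ _).mp hqp
    have h3 : p ≠ y := fun h => hqe (by rw [h])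
    have h4 := isClosed_singleton_of_dim_le_two hdim h1 hyη h2 h3
    exact (PrimeSpectrum.isClosed_singleton_iff_isMaximal p).mp h4

end length

section avoid

/-- Finitely many nonzero linear maps on a vector space over an infinite field have a common
element on which none of them vanishes. -/
theorem exists_forall_ne_zero {k : Type u} [Field k] [Infinite k] {E : Type v} [AddCommGroup E]
    [Module k E] {ι : Type*} [Finite ι] {F : ι → Type*} [∀ i, AddCommGroup (F i)]
    [∀ i, Module k (F i)] (f : ∀ i, E →ₗ[k] F i) (hf : ∀ i, f i ≠ 0) :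
    ∃ e : E, ∀ i, f i e ≠ 0 := by
  by_contra hno
  push Not at hno
  have hcov : ⋃ i, ((LinearMap.ker (f i) : Subspace k E) : Set E) = Set.univ := by
    rw [Set.eq_univ_iff_forall]
    intro e
    obtain ⟨i, hi⟩ := hno e
    exact Set.mem_iUnion.mpr ⟨i, hi⟩
  obtain ⟨i, hi⟩ := Subspace.exists_eq_top_of_iUnion_eq_univ hcov
  exact hf i (LinearMap.ker_eq_top.mp hi)

end avoid

end Fdim.CA
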