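import Mathlib

/-!
# MP_f714fc_ag, commutative algebra, part 1

The maximal ideals of a smooth algebra over an algebraically closed field are locally generated
by a regular sequence.
-/

namespace Fdim.CA

open RingTheory.Sequence IsLocalRing

universe u v

/-- The maximal ideal of the local ring `R` is generated by a regular sequence of length `n`. -/
def RegGen (R : Type u) [CommRing R] [IsLocalRing R] (n : ℕ) : Prop :=
  ∃ rs : List R, rs.length = n ∧ IsRegular R rs ∧ Ideal.ofList rs = maximalIdeal R

section poly

variable {P : Type u} [CommRing P]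

open Polynomial Pointwise in
lemma isWeaklyRegular_X_sub_C_cons (b : P) (rs : List P) (h : IsWeaklyRegular P rs) :
    IsWeaklyRegular P[X] ((X - C b) :: rs.map C) := by
  rw [isWeaklyRegular_cons_iff]
  refine ⟨fun x y hxy => (monic_X_sub_C b).isRegular.left hxy, ?_⟩
  let φ : P[X] →+* P := evalRingHom b
  let _ : Module P[X] P := Module.compHom P φ
  let f : P[X] →ₗ[P[X]] P :=
    { toFun := φ
      map_add' := φ.map_add
      map_smul' := fun r x => by
        change φ (r * x) = φ r * φ x
        exact φ.map_mul r x }
  have hf : Function.Surjective f := fun p => ⟨C p, by change eval b (C p) = p; simp⟩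
  have hker : (X - C b : P[X]) • (⊤ : Submodule P[X] P[X]) = LinearMap.ker f := by
    rw [← Submodule.ideal_span_singleton_smul, smul_eq_mul, Ideal.mul_top]
    ext x
    rw [LinearMap.mem_ker]
    change _ ↔ eval b x = 0
    rw [← IsRoot.def, ← dvd_iff_isRoot, Ideal.mem_span_singleton]
  let e : QuotSMulTop (X - C b : P[X]) P[X] ≃ₗ[P[X]] P :=
    (Submodule.quotEquivOfEq _ _ hker).trans (f.quotKerEquivOfSurjective hf)
  rw [e.isWeaklyRegular_congr]
  rw [(AddEquiv.refl P).isWeaklyRegular_congr (bs := rs)]
  · exact h
  · rw [List.forall₂_map_left_iff, List.forall₂_same]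
    intro p _ x
    change φ (C p) * x = p * x
    congr 1
    change eval b (C p) = p
    simp

end poly

lemma isWeaklyRegular_mvPolynomial (R : Type u) [CommRing R] (n : ℕ) (a : Fin n → R) :
    IsWeaklyRegular (MvPolynomial (Fin n) R)
      (List.ofFn fun i => MvPolynomial.X i - MvPolynomial.C (a i)) := by
  induction n with
  | zero => simp
  | succ n ih =>
    let e := MvPolynomial.finSuccEquiv R n
    rw [AddEquiv.isWeaklyRegular_congr (e := e.toRingEquiv.toAddEquiv)
      (bs := (Polynomial.X - Polynomial.C (MvPolynomial.C (a 0))) ::
        (List.ofFn fun i : Fin n =>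
          MvPolynomial.X i - MvPolynomial.C (a i.succ)).map Polynomial.C)]
    · exact isWeaklyRegular_X_sub_C_cons _ _ (ih fun i => a i.succ)
    · rw [List.ofFn_succ, List.map_ofFn, List.forall₂_cons]
      constructor
      · intro x
        change e (_ * x) = _ * e x
        rw [map_mul, map_sub, MvPolynomial.finSuccEquiv_X_zero]
        congr 2
        simp [e, MvPolynomial.finSuccEquiv_apply]
      · rw [List.forall₂_iff_get]
        refine ⟨by simp, fun i h1 h2 x => ?_⟩
        simp only [List.get_eq_getElem, List.getElem_ofFn, Function.comp]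
        change e (_ * x) = _ * e x
        rw [map_mul, map_sub, MvPolynomial.finSuccEquiv_X_succ, map_sub]
        congr 2
        simp [e, MvPolynomial.finSuccEquiv_apply]

end Fdim.CA
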