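import Mathlib
import Pool.Agent.Work.MP_f714fc_ag.CA.RegSeq

/-!
# MP_f714fc_ag, commutative algebra, part 2

Localizations of a standard smooth algebra of relative dimension `n` over an algebraically closed
field at maximal ideals: the maximal ideal is generated by a regular sequence of length `n`.
-/

namespace Fdim.CA

open RingTheory.Sequence IsLocalRing

universe u v

section taylor

variable {k : Type u} [CommRing k] {n : ℕ} (a : Fin n → k)

lemma sub_eval_mem (f : MvPolynomial (Fin n) k) :
    f - MvPolynomial.C (MvPolynomial.eval a f) ∈
      Ideal.span (Set.range fun i => (MvPolynomial.X i - MvPolynomial.C (a i) :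
        MvPolynomial (Fin n) k)) := by
  induction f using MvPolynomial.induction_on with
  | C r => simp
  | add p q hp hq =>
    have : p + q - MvPolynomial.C (MvPolynomial.eval a (p + q)) =
        (p - MvPolynomial.C (MvPolynomial.eval a p)) +
          (q - MvPolynomial.C (MvPolynomial.eval a q)) := by
      simp only [map_add]; ring
    rw [this]
    exact Ideal.add_mem _ hp hq
  | mul_X p i hp =>
    have : p * MvPolynomial.X i - MvPolynomial.C (MvPolynomial.eval a (p * MvPolynomial.X i)) =
        MvPolynomial.X i * (p - MvPolynomial.C (MvPolynomial.eval a p)) +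
          MvPolynomial.C (MvPolynomial.eval a p) *
            (MvPolynomial.X i - MvPolynomial.C (a i)) := by
      simp only [map_mul, MvPolynomial.eval_X]; ring
    rw [this]
    exact Ideal.add_mem _ (Ideal.mul_mem_left _ _ hp)
      (Ideal.mul_mem_left _ _ (Ideal.subset_span ⟨i, rfl⟩))

end taylor

/-- A maximal ideal of an algebra of finite type over an algebraically closed field has
residue field `k`. -/
lemma exists_sub_mem {k : Type u} [Field k] [IsAlgClosed k] {A : Type v} [CommRing A] [Algebra k A]
    [Algebra.FiniteType k A] (m : Ideal A) [m.IsMaximal] (x : A) :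
    ∃ c : k, x - algebraMap k A c ∈ m := by
  let _ : Field (A ⧸ m) := Ideal.Quotient.field m
  have hfin : Module.Finite k (A ⧸ m) := finite_of_finite_type_of_isJacobsonRing k (A ⧸ m)
  have hbij : Function.Bijective (algebraMap k (A ⧸ m)) :=
    IsAlgClosed.algebraMap_bijective_of_isIntegral
  obtain ⟨c, hc⟩ := hbij.2 (Ideal.Quotient.mk m x)
  refine ⟨c, ?_⟩
  rw [← Ideal.Quotient.eq_zero_iff_mem, map_sub, ← hc]
  exact sub_self _

theorem regGen_of_etale {k : Type u} [Field k] [IsAlgClosed k] {A : Type v} [CommRing A]
    [Algebra k A] (n : ℕ) [Algebra (MvPolynomial (Fin n) k) A]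
    [IsScalarTower k (MvPolynomial (Fin n) k) A] [Algebra.Etale (MvPolynomial (Fin n) k) A]
    (m : Ideal A) [hm : m.IsMaximal] : RegGen (Localization.AtPrime m) n := by
  have hft : Algebra.FiniteType k A := Algebra.FiniteType.trans (S := MvPolynomial (Fin n) k)
    inferInstance inferInstance
  let P := MvPolynomial (Fin n) k
  choose a ha using fun i => exists_sub_mem (k := k) m (algebraMap P A (MvPolynomial.X i))
  let rs : List P := List.ofFn fun i => MvPolynomial.X i - MvPolynomial.C (a i)
  have hrs : IsWeaklyRegular P rs := isWeaklyRegular_mvPolynomial k n a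
  let p : Ideal P := m.under P
  have hspan : Ideal.ofList rs = p := by
    have h1 : Ideal.ofList rs = Ideal.span (Set.range fun i =>
        (MvPolynomial.X i - MvPolynomial.C (a i) : P)) := by
      unfold Ideal.ofList
      congr 1
      ext x
      simp [rs, List.mem_ofFn]
    rw [h1]
    have hle : Ideal.span (Set.range fun i =>
        (MvPolynomial.X i - MvPolynomial.C (a i) : P)) ≤ p := by
      rw [Ideal.span_le]
      rintro _ ⟨i, rfl⟩
      change algebraMap P A _ ∈ m
      rw [map_sub]
      have : algebraMap P A (MvPolynomial.C (a i)) = algebraMap k A (a i) := by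
        rw [IsScalarTower.algebraMap_apply k P A]; rfl
      rw [this]
      exact ha i
    refine le_antisymm hle fun f hf => ?_
    have h2 := sub_eval_mem a f
    have h3 : MvPolynomial.C (MvPolynomial.eval a f) ∈ p := by
      have := Ideal.sub_mem _ hf (hle h2)
      simpa using this
    have h4 : MvPolynomial.eval a f = 0 := by
      by_contra hne
      have hp : p.IsPrime := inferInstance
      exact hp.ne_top (Ideal.eq_top_of_isUnit_mem _ h3
        ((isUnit_iff_ne_zero.mpr hne).map MvPolynomial.C))
    rw [h4, map_zero, sub_zero] at h2
    exact h2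
  let _ : Algebra (Localization.AtPrime p) (Localization.AtPrime m) :=
    Localization.AtPrime.algebraOfLiesOver p m
  have hun : Algebra.IsUnramifiedAt P m := inferInstance
  have hmap := ((Algebra.isUnramifiedAt_iff_map_eq P p m).mp hun).2
  have hflat : Module.Flat P (Localization.AtPrime m) := Module.Flat.trans P A _
  have hw := hrs.of_flat (S := Localization.AtPrime m)
  have hof : Ideal.ofList (rs.map (algebraMap P (Localization.AtPrime m))) =
      maximalIdeal (Localization.AtPrime m) := by
    rw [← Ideal.map_ofList, hspan, hmap]
  refine ⟨rs.map (algebraMap P (Localization.AtPrime m)), by simp [rs], ?_, hof⟩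
  rw [IsLocalRing.isRegular_iff_isWeaklyRegular_of_subset_maximalIdeal]
  · exact hw
  · intro r hr
    rw [← hof]
    exact Ideal.subset_span hr

theorem regGen_of_smooth {k : Type u} [Field k] [IsAlgClosed k] {A : Type v} [CommRing A]
    [Algebra k A] (n : ℕ) [Algebra.IsStandardSmoothOfRelativeDimension n k A]
    (m : Ideal A) [hm : m.IsMaximal] : RegGen (Localization.AtPrime m) n := by
  obtain ⟨g, hg⟩ := Algebra.IsStandardSmoothOfRelativeDimension.exists_etale_mvPolynomial n k A
  let _ : Algebra (MvPolynomial (Fin n) k) A := g.toRingHom.toAlgebra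
  have : IsScalarTower k (MvPolynomial (Fin n) k) A := .of_algebraMap_eq' g.comp_algebraMap.symm
  have : Algebra.Etale (MvPolynomial (Fin n) k) A := hg
  exact regGen_of_etale (k := k) n m

end Fdim.CA
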