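import Mathlib
import Pool.Agent.Work.MP_f714fc_ag.CA.SmoothLocal

/-!
# MP_f714fc_ag, commutative algebra, part 3

If the maximal ideal of a noetherian local ring is generated by a regular sequence of length `n`,
every finitely generated module has projective dimension at most `n`; global version for standard
smooth algebras of relative dimension `n` over an algebraically closed field.
-/

namespace Fdim.CA

open RingTheory.Sequence IsLocalRing CategoryTheory Function

universe u v

section depth

variable {R : Type u} [CommRing R]

open Pointwise in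
lemma quotSMulTop_map_injective {N F L : Type v} [AddCommGroup N] [AddCommGroup F]
    [AddCommGroup L] [Module R N] [Module R F] [Module R L] (f : N →ₗ[R] F) (g : F →ₗ[R] L)
    (hf : Injective f) (hfg : Exact f g) (x : R) (hx : IsSMulRegular L x) :
    Injective (QuotSMulTop.map x f) := by
  rw [← LinearMap.ker_eq_bot, LinearMap.ker_eq_bot']
  intro q hq
  obtain ⟨n, rfl⟩ := Submodule.mkQ_surjective _ q
  have hq' : Submodule.Quotient.mk (p := x • (⊤ : Submodule R F)) (f n) = 0 := hq
  rw [Submodule.Quotient.mk_eq_zero, Submodule.mem_smul_pointwise_iff_exists] at hq'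
  obtain ⟨y, -, hy⟩ := hq'
  have h1 : x • g y = 0 := by
    rw [← map_smul, hy]
    exact (hfg (f n)).mpr ⟨n, rfl⟩
  have h2 : g y = 0 := hx (by simpa using h1)
  obtain ⟨n', rfl⟩ := (hfg y).mp h2
  have h3 : n = x • n' := hf (by rw [map_smul, hy])
  change Submodule.Quotient.mk (p := x • (⊤ : Submodule R N)) n = 0
  rw [Submodule.Quotient.mk_eq_zero, Submodule.mem_smul_pointwise_iff_exists]
  exact ⟨n', trivial, h3.symm⟩

/-- The depth lemma for syzygies. -/
lemma isWeaklyRegular_of_exact (xs : List R) (y : R) {N F L : Type v} [AddCommGroup N]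
    [AddCommGroup F] [AddCommGroup L] [Module R N] [Module R F] [Module R L]
    (f : N →ₗ[R] F) (g : F →ₗ[R] L) (hf : Injective f) (hfg : Exact f g) (hg : Surjective g)
    (hL : IsWeaklyRegular L xs) (hF : IsWeaklyRegular F (xs ++ [y])) :
    IsWeaklyRegular N (xs ++ [y]) := by
  induction xs generalizing N F L with
  | nil =>
    rw [List.nil_append, isWeaklyRegular_singleton_iff] at hF ⊢
    intro a b hab
    apply hf
    apply hF
    change y • f a = y • f b
    rw [← map_smul, ← map_smul]
    exact congrArg f hab
  | cons x xs ih =>
    rw [List.cons_append, isWeaklyRegular_cons_iff] at hF ⊢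
    rw [isWeaklyRegular_cons_iff] at hL
    refine ⟨?_, ?_⟩
    · intro a b hab
      apply hf
      apply hF.1
      change x • f a = x • f b
      rw [← map_smul, ← map_smul]
      exact congrArg f hab
    · exact ih (QuotSMulTop.map x f) (QuotSMulTop.map x g)
        (quotSMulTop_map_injective f g hf hfg x hL.1) (QuotSMulTop.map_exact x hfg hg)
        (QuotSMulTop.map_surjective x hg) hL.2 hF.2

end depth

section general

variable {R : Type u} [CommRing R]

lemma isWeaklyRegular_of_flat {rs : List R} (h : IsWeaklyRegular R rs) (F : Type u)
    [AddCommGroup F] [Module R F] [Module.Flat R F] : IsWeaklyRegular F rs :=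
  ((TensorProduct.rid R F).isWeaklyRegular_congr rs).mp (h.isWeaklyRegular_lTensor (M₂ := F))

lemma isWeaklyRegular_take {M : Type v} [AddCommGroup M] [Module R M] {rs : List R}
    (h : IsWeaklyRegular M rs) (i : ℕ) : IsWeaklyRegular M (rs.take i) := by
  rw [← List.take_append_drop i rs, isWeaklyRegular_append_iff] at h
  exact h.1

lemma hasProjectiveDimensionLE_pi (M : ModuleCat.{u} R) (n r : ℕ)
    (h : HasProjectiveDimensionLE M n) :
    HasProjectiveDimensionLE (ModuleCat.of R (Fin r → M)) n := by
  induction r with
  | zero =>
    have h0 : Limits.IsZero (ModuleCat.of R (Fin 0 → M)) :=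
      ModuleCat.isZero_of_subsingleton _
    have := h0.hasProjectiveDimensionLT_zero
    exact hasProjectiveDimensionLT_of_ge _ 0 (n + 1) (Nat.zero_le _)
  | succ r ih =>
    have : HasProjectiveDimensionLE (M ⊞ ModuleCat.of R (Fin r → M)) n := by
      have h1 : HasProjectiveDimensionLT M (n + 1) := h
      have h2 : HasProjectiveDimensionLT (ModuleCat.of R (Fin r → M)) (n + 1) := ih
      exact (inferInstance : HasProjectiveDimensionLT (M ⊞ ModuleCat.of R (Fin r → M)) (n + 1))
    have e : (M ⊞ ModuleCat.of R (Fin r → M)) ≅ ModuleCat.of R (Fin (r + 1) → M) :=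
      (ModuleCat.biprodIsoProd _ _).trans
        (LinearEquiv.toModuleIso (Fin.consLinearEquiv R (fun _ => M)))
    exact hasProjectiveDimensionLT_of_iso e (n + 1)

end general

section local_ring

variable {R : Type u} [CommRing R] [IsNoetherianRing R] [IsLocalRing R]

/-- A finitely generated module on which a regular sequence generating the maximal ideal is
weakly regular is free (Lean form: projective dimension at most `0`). -/
lemma hasProjectiveDimensionLE_zero_of_isWeaklyRegular (rs : List R) (hrs : IsRegular R rs)
    (hmax : Ideal.ofList rs = maximalIdeal R) (M : ModuleCat.{u} R) [Module.Finite R M]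
    (hM : IsWeaklyRegular M rs) : HasProjectiveDimensionLE M 0 := by
  rcases subsingleton_or_nontrivial M with hsub | hnt
  · have h0 : Limits.IsZero M := ModuleCat.isZero_of_subsingleton _
    have := h0.hasProjectiveDimensionLT_zero
    exact hasProjectiveDimensionLT_of_ge _ 0 (0 + 1) (Nat.zero_le _)
  have mem : ∀ r ∈ rs, r ∈ maximalIdeal R := fun r hr => by
    rw [← hmax]; exact Ideal.subset_span hr
  have h1 := ModuleCat.projectiveDimension_quotient_eq_add_length_of_isWeaklyRegular M rs hM mem
  have h2 : projectiveDimension (ModuleCat.of R (Shrink.{u} (R ⧸ Ideal.ofList rs))) =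
      rs.length := ModuleCat.projectiveDimension_quotient_eq_length rs hrs
  have h3 : HasProjectiveDimensionLE (ModuleCat.of R (R ⧸ Ideal.ofList rs)) rs.length := by
    have h4 : HasProjectiveDimensionLE (ModuleCat.of R (Shrink.{u} (R ⧸ Ideal.ofList rs)))
        rs.length := by
      rw [← projectiveDimension_le_iff, h2]
    exact hasProjectiveDimensionLT_of_iso (Shrink.linearEquiv R _).toModuleIso (rs.length + 1)
  have h5 : HasProjectiveDimensionLE
      (ModuleCat.of R (M ⧸ Ideal.ofList rs • (⊤ : Submodule R M))) rs.length := by
    have hm : (Ideal.ofList rs).IsMaximal := hmax ▸ inferInstance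
    let _ : Field (R ⧸ Ideal.ofList rs) := Ideal.Quotient.field _
    have hfin : Module.Finite (R ⧸ Ideal.ofList rs)
        (M ⧸ Ideal.ofList rs • (⊤ : Submodule R M)) :=
      Module.Finite.of_restrictScalars_finite R _ _
    let b := Module.finBasis (R ⧸ Ideal.ofList rs) (M ⧸ Ideal.ofList rs • (⊤ : Submodule R M))
    let e := b.equivFun.restrictScalars R
    have h6 := hasProjectiveDimensionLE_pi (ModuleCat.of R (R ⧸ Ideal.ofList rs)) rs.length
      (Module.finrank (R ⧸ Ideal.ofList rs) (M ⧸ Ideal.ofList rs • (⊤ : Submodule R M))) h3
    exact hasProjectiveDimensionLT_of_iso (e.symm.toModuleIso) (rs.length + 1)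
  rw [← projectiveDimension_le_iff] at h5 ⊢
  rw [h1] at h5
  have h7 : projectiveDimension M + (rs.length : ℕ) ≤ ((0 : ℕ) : WithBot ℕ∞) + (rs.length : ℕ) := by
    simpa using h5
  exact (ENat.WithBot.add_le_add_natCast_right_iff ..).mp h7

theorem hasProjectiveDimensionLE_of_isWeaklyRegular_take (rs : List R) (hrs : IsRegular R rs)
    (hmax : Ideal.ofList rs = maximalIdeal R) (d : ℕ) (hd : d ≤ rs.length) (M : ModuleCat.{u} R)
    [Module.Finite R M]
    (hM : IsWeaklyRegular M (rs.take (rs.length - d))) : HasProjectiveDimensionLE M d := by
  induction d generalizing M with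
  | zero =>
    rw [Nat.sub_zero, List.take_length] at hM
    exact hasProjectiveDimensionLE_zero_of_isWeaklyRegular rs hrs hmax M hM
  | succ d ih =>
    rcases Module.exists_finite_presentation R M with ⟨F, _, _, _, _, f, surjf⟩
    let S : ShortComplex (ModuleCat.{u} R) := f.shortComplexKer
    have hS : S.ShortExact := LinearMap.shortExact_shortComplexKer surjf
    have hX1 : HasProjectiveDimensionLE S.X₁ d := by
      refine ih (by omega) S.X₁ ?_
      have hlt : rs.length - (d + 1) < rs.length := by omega
      have htake : rs.take (rs.length - d) =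
          rs.take (rs.length - (d + 1)) ++ [rs[rs.length - (d + 1)]] := by
        rw [List.take_append_getElem]
        congr 1
        omega
      rw [htake]
      refine isWeaklyRegular_of_exact _ _ (LinearMap.ker f).subtype f
        (Submodule.injective_subtype _) (LinearMap.exact_subtype_ker_map f) surjf hM ?_
      rw [← htake]
      exact isWeaklyRegular_take (isWeaklyRegular_of_flat hrs.toIsWeaklyRegular F) _
    have hX2 : HasProjectiveDimensionLT S.X₂ (d + 1 + 1) := by
      have : Projective S.X₂ := ModuleCat.projective_of_categoryTheory_projective S.X₂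
      exact hasProjectiveDimensionLT_of_ge _ 1 (d + 1 + 1) (by omega)
    exact hS.hasProjectiveDimensionLT_X₃ (d + 1) hX1 hX2

/-- Over a noetherian local ring whose maximal ideal is generated by a regular sequence of
length `n`, finitely generated modules have projective dimension at most `n`. -/
theorem RegGen.hasProjectiveDimensionLE {n : ℕ} (h : RegGen R n) (M : ModuleCat.{u} R)
    [Module.Finite R M] : HasProjectiveDimensionLE M n := by
  obtain ⟨rs, rfl, hrs, hmax⟩ := h
  refine hasProjectiveDimensionLE_of_isWeaklyRegular_take rs hrs hmax rs.length le_rfl M ?_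
  simp

end local_ring

section global

variable {A : Type u} [CommRing A] [IsNoetherianRing A]

theorem hasProjectiveDimensionLE_of_forall_regGen (n : ℕ)
    (h : ∀ (m : Ideal A) [m.IsMaximal], RegGen (Localization.AtPrime m) n)
    (M : ModuleCat.{u} A) [Module.Finite A M] : HasProjectiveDimensionLE M n := by
  rw [ModuleCat.hasProjectiveDimensionLE_iff_forall_maximalSpectrum]
  intro m
  have hfin : Module.Finite (Localization.AtPrime m.asIdeal)
      (M.localizedModule m.asIdeal.primeCompl) :=
    Module.Finite.of_isLocalizedModule m.asIdeal.primeCompl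
      (M.localizedModuleMkLinearMap m.asIdeal.primeCompl)
  exact (h m.asIdeal).hasProjectiveDimensionLE _

/-- Second syzygies over a noetherian ring all of whose localizations at maximal ideals have the
maximal ideal generated by a regular sequence of length `2` are projective. -/
theorem projective_ker_of_forall_regGen_two
    (h : ∀ (m : Ideal A) [m.IsMaximal], RegGen (Localization.AtPrime m) 2)
    {P Q : Type u} [AddCommGroup P] [AddCommGroup Q] [Module A P] [Module A Q]
    [Module.Finite A P] [Module.Finite A Q] [Module.Projective A P] [Module.Projective A Q]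
    (f : P →ₗ[A] Q) : Module.Projective A (LinearMap.ker f) := by
  let C := ModuleCat.of A (Q ⧸ LinearMap.range f)
  have hC : HasProjectiveDimensionLT C 3 := hasProjectiveDimensionLE_of_forall_regGen 2 h C
  have hI : HasProjectiveDimensionLT (ModuleCat.of A (LinearMap.range f)) 2 := by
    let g := (LinearMap.range f).mkQ
    have hS := LinearMap.shortExact_shortComplexKer (Submodule.mkQ_surjective (LinearMap.range f))
    have hQ : Projective (ModuleCat.of A Q) := (IsProjective.iff_projective Q).mp inferInstance
    have := (hS.hasProjectiveDimensionLT_X₃_iff 1 hQ).mp hC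
    have e : LinearMap.ker (LinearMap.range f).mkQ ≃ₗ[A] LinearMap.range f :=
      LinearEquiv.ofEq _ _ (Submodule.ker_mkQ _)
    exact hasProjectiveDimensionLT_of_iso e.toModuleIso 2
  have hS := LinearMap.shortExact_shortComplexKer (LinearMap.surjective_rangeRestrict f)
  have hP : Projective (ModuleCat.of A P) := (IsProjective.iff_projective P).mp inferInstance
  have h1 := (hS.hasProjectiveDimensionLT_X₃_iff 0 hP).mp hI
  rw [zero_add, ← projective_iff_hasProjectiveDimensionLT_one,
    ← IsProjective.iff_projective] at h1
  have e : LinearMap.ker f.rangeRestrict ≃ₗ[A] LinearMap.ker f :=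
    LinearEquiv.ofEq _ _ (LinearMap.ker_rangeRestrict f)
  exact Module.Projective.of_equiv e

end global

section smooth

variable {k : Type u} [Field k] [IsAlgClosed k] {A : Type u} [CommRing A] [Algebra k A]

theorem hasProjectiveDimensionLE_of_smooth (n : ℕ)
    [Algebra.IsStandardSmoothOfRelativeDimension n k A] (M : ModuleCat.{u} A)
    [Module.Finite A M] : HasProjectiveDimensionLE M n := by
  have : Algebra.IsStandardSmooth k A :=
    Algebra.IsStandardSmoothOfRelativeDimension.isStandardSmooth n
  have hft : Algebra.FiniteType k A := inferInstance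
  have : IsNoetherianRing A := Algebra.FiniteType.isNoetherianRing k A
  exact hasProjectiveDimensionLE_of_forall_regGen n (fun m _ => regGen_of_smooth (k := k) n m) M

end smooth

end Fdim.CA
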